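import Pool.Agent.Results.MP_d56e90_lc.ZFCAnswer

/-!
# Monochromatic symmetric subsets of Abelian groups: infinitely many colours and exact values

`ν(G, κ)` is the least number `r` of colours such that some `r`-colouring of `G` has no
monochromatic symmetric subset of cardinality at least `κ`; `Avoids G κ r` (starting file
`ZFCAnswer`) says that `r` colours suffice.

We prove in ZFC for every infinite Abelian group `G` with more than `κ` elements:

* `ν(G, κ)` is infinite (the starting theorem), and for infinite `κ` moreover `r < ν(G, κ)` for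
  every cardinal `r` with `κ ^ r = κ`, finite or infinite;
* if `#G = κ⁺` and at most `κ` elements `x` satisfy `x + x = 0`, then some colouring with `κ`
  colours has no monochromatic symmetric subset with more than two elements; so
  `ν(G, μ) = κ` for all `3 ≤ μ ≤ κ` if `κ ^< κ = κ`, for example for `κ = ℵ₀`;
* if `#G = κ⁺` and more than `κ` elements `x` satisfy `x + x = 0`, then `ν(G, μ) = κ⁺` for all
  `2 ≤ μ ≤ κ⁺`.
-/

set_option autoImplicit false

namespace Pool.Agent.Results.MP_d56e90_lc.ExactNumber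

open Cardinal Set Pool.Agent.Results.MP_d56e90_lc.ZFCAnswer

universe u v w

/-- Transfinite dependent choice along a well-order, for a relation between all earlier and later
values. -/
theorem exists_seq {J : Type v} {X : Type w} [LinearOrder J] [WellFoundedLT J] [Nonempty X]
    (S : X → X → Prop) (h : ∀ (j : J) (g : J → X), ∃ x, ∀ i < j, S (g i) x) :
    ∃ s : J → X, ∀ i j, i < j → S (s i) (s j) := by
  classical
  let F : (j : J) → ((i : J) → i < j → X) → X := fun j prev =>
    if hx : ∃ x, ∀ (i : J) (hi : i < j), S (prev i hi) x then hx.choose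
    else Classical.arbitrary X
  let s : J → X := (wellFounded_lt (α := J)).fix F
  have hs : ∀ j, s j = F j (fun i _ => s i) := fun j => (wellFounded_lt (α := J)).fix_eq F j
  refine ⟨s, fun i j hij => ?_⟩
  have hx : ∃ x, ∀ (i : J) (_ : i < j), S (s i) x := h j s
  have hsj : s j = hx.choose := by
    rw [hs]
    simp only [F]
    rw [dif_pos hx]
  rw [hsj]
  exact hx.choose_spec i hij

/-- If `κ ^ r ≤ κ` then `r < cf κ`. -/
theorem lt_cof_of_power {κ r : Cardinal.{u}} (hκ : ℵ₀ ≤ κ) (h : κ ^ r ≤ κ) :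
    r < κ.ord.cof := by
  by_contra hlt
  have h1 : κ ^ κ.ord.cof ≤ κ ^ r :=
    power_le_power_left (aleph0_pos.trans_le hκ).ne' (not_lt.1 hlt)
  exact absurd ((lt_power_cof_ord hκ).trans_le (h1.trans h)) (lt_irrefl _)

/-- The combinatorial principle for pairs, for every number of colours `r` with `κ ^ r = κ`. -/
theorem pairs_power {κ : Cardinal.{u}} (hκ : ℵ₀ ≤ κ) {W R : Type u} [LinearOrder W]
    [WellFoundedLT W] [Nonempty W] (hIic : ∀ x : W, #(Iic x) ≤ κ)
    (hbdd : ∀ A : Set W, #A ≤ κ → ∃ b, ∀ a ∈ A, a < b) (hR : κ ^ #R ≤ κ) (c : W → W → R) :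
    ∃ α β j, κ ≤ #{ξ | α < ξ ∧ ξ < β ∧ c α ξ = j ∧ c ξ β = j} := by
  classical
  have hcof : #R < κ.ord.cof := lt_cof_of_power hκ hR
  have hcofle : κ.ord.cof ≤ κ := Ordinal.cof_ord_le κ
  -- the sets of points which look the same
  let Z : Set R → (R → W) → Set W := fun J a => {z | ∀ j ∈ J, a j < z ∧ c (a j) z = j}
  have hb : ∀ J a, ∃ b : W, ∀ z ∈ Z J a, #(Z J a ∩ Iio z : Set W) < κ → z < b := by
    intro J a
    by_contra hcon
    push Not at hcon
    let B : Set W := {z | z ∈ Z J a ∧ #(Z J a ∩ Iio z : Set W) < κ}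
    have hunb : ∀ b, ∃ z ∈ B, b ≤ z := by
      intro b
      obtain ⟨z, h1, h2, h3⟩ := hcon b
      exact ⟨z, ⟨h1, h2⟩, h3⟩
    have hB : κ ≤ #B := by
      by_contra hlt
      obtain ⟨b, hb⟩ := hbdd B (not_le.1 hlt).le
      obtain ⟨z, hz, hbz⟩ := hunb b
      exact absurd (hb z hz) (not_lt.2 hbz)
    obtain ⟨B', hB', hB'c⟩ := le_mk_iff_exists_subset.1 hB
    obtain ⟨b, hb⟩ := hbdd B' hB'c.le
    obtain ⟨z, hz, hbz⟩ := hunb b
    have h1 : κ ≤ #(Z J a ∩ Iio z : Set W) := by
      rw [← hB'c]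
      exact mk_le_mk_of_subset fun x hx => ⟨(hB' hx).1, (hb x hx).trans_le hbz⟩
    exact absurd hz.2 (not_lt.2 h1)
  choose b hb using hb
  -- closure
  have hs : ∀ x : W, ∃ y, x < y ∧ ∀ J a, (∀ j, a j ≤ x) → b J a < y := by
    intro x
    obtain ⟨y, hy⟩ := hbdd ({x} ∪ range fun p : Set R × (R → Iic x) => b p.1 fun j => (p.2 j).1) (by
      refine (mk_union_le _ _).trans ?_
      refine (add_le_add (b := κ) (d := κ) ?_ ?_).trans (add_eq_self hκ).le
      · rw [mk_singleton]
        exact one_le_aleph0.trans hκ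
      · refine mk_range_le.trans ?_
        rw [mk_prod, lift_id, lift_id, mk_set, ← power_def]
        refine (mul_le_mul' (b := κ) (d := κ) ?_ ?_).trans (mul_eq_self hκ).le
        · refine le_trans ?_ hR
          exact power_le_power_right ((natCast_lt_aleph0 (n := 2)).le.trans hκ)
        · exact (power_le_power_right (hIic x)).trans hR)
    refine ⟨y, hy x (Or.inl rfl), fun J a ha => ?_⟩
    exact hy _ (Or.inr ⟨(J, fun j => ⟨a j, ha j⟩), rfl⟩)
  choose s hs1 hs2 using hs
  let I : Type u := κ.ord.cof.ord.ToType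
  have hI : #I = κ.ord.cof := mk_ord_toType _
  have hreg : κ.ord.cof.IsRegular := isRegular_cof (isSuccLimit_ord hκ)
  have hIbdd : ∀ n : R → I, ∃ m, ∀ j, n j < m := by
    intro n
    have h5 : ¬ IsCofinal (range n) := by
      intro h
      have h6 := Order.cof_le h
      rw [Ordinal.cof_toType, hreg.cof_ord] at h6
      exact absurd ((h6.trans mk_range_le).trans_lt hcof) (lt_irrefl _)
    obtain ⟨m, hm⟩ := not_isCofinal_iff.1 h5
    exact ⟨m, fun j => hm _ ⟨j, rfl⟩⟩
  have hIne : Nonempty I := by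
    rw [← mk_ne_zero_iff, hI]
    exact (aleph0_pos.trans_le hreg.aleph0_le).ne'
  obtain ⟨t, ht⟩ := exists_seq (J := I) (fun x y : W => s x < y) (by
    intro j g
    obtain ⟨x, hx⟩ := hbdd ((fun i => s (g i)) '' Iio j) (by
      refine mk_image_le.trans ?_
      refine (mk_set_le _).trans ?_
      rw [hI]
      exact hcofle)
    exact ⟨x, fun i hi => hx _ ⟨i, hi, rfl⟩⟩)
  have htm : StrictMono t := fun i j hij => (hs1 _).trans (ht i j hij)
  obtain ⟨w, hw⟩ := hbdd (range t) (by
    refine mk_range_le.trans ?_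
    rw [hI]
    exact hcofle)
  let U : Set W := {y | ∀ n, t n ≤ y}
  have hU : U.Nonempty := ⟨w, fun n => (hw _ ⟨n, rfl⟩).le⟩
  let δ : W := (wellFounded_lt (α := W)).min U hU
  have hnext : ∀ n : I, ∃ m, n < m := by
    intro n
    by_contra hcon
    push Not at hcon
    have h5 : IsCofinal ({n} : Set I) := fun m => ⟨n, rfl, hcon m⟩
    have h6 := Order.cof_le h5
    rw [Ordinal.cof_toType, hreg.cof_ord, mk_singleton] at h6
    exact absurd (hreg.aleph0_le.trans h6) (not_le.2 one_lt_aleph0)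
  have hδ : ∀ n, t n < δ := fun n => by
    obtain ⟨m, hm⟩ := hnext n
    exact (htm hm).trans_le ((wellFounded_lt (α := W)).min_mem U hU m)
  have hδ' : ∀ x < δ, ∃ n, x < t n := by
    intro x hx
    by_contra hcon
    push Not at hcon
    exact (wellFounded_lt (α := W)).not_lt_min U hcon hx
  -- the last point is `δ`
  let J : Set R := {j | ∃ ξ < δ, c ξ δ = j}
  have ha : ∀ j : R, ∃ x, x < δ ∧ (j ∈ J → c x δ = j) := by
    intro j
    by_cases hj : j ∈ J
    · obtain ⟨ξ, h1, h2⟩ := hj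
      exact ⟨ξ, h1, fun _ => h2⟩
    · exact ⟨t (Classical.arbitrary I), hδ _, fun h => absurd h hj⟩
  choose a ha1 ha2 using ha
  have hbδ : b J a < δ := by
    choose n hn using fun j => hδ' (a j) (ha1 j)
    obtain ⟨m, hm⟩ := hIbdd n
    have h1 := hs2 (t m) J a fun j => ((hn j).trans_le (htm.monotone (hm j).le)).le
    obtain ⟨m', hm'⟩ := hnext m
    exact h1.trans ((ht m m' hm').trans (hδ _))
  have hδZ : δ ∈ Z J a := fun j hj => ⟨ha1 j, ha2 j hj⟩
  have hbig : κ ≤ #(Z J a ∩ Iio δ : Set W) := by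
    by_contra hlt
    exact absurd (hb J a δ hδZ (not_le.1 hlt)) (not_lt.2 hbδ.le)
  obtain ⟨j, hj⟩ := infinite_pigeonhole_card (fun ξ : (Z J a ∩ Iio δ : Set W) => c ξ.1 δ) κ hbig hκ
    hcof
  have hne : ((fun ξ : (Z J a ∩ Iio δ : Set W) => c ξ.1 δ) ⁻¹' {j}).Nonempty := by
    rw [← Set.nonempty_coe_sort, ← mk_ne_zero_iff]
    intro h0
    rw [h0] at hj
    exact absurd (hκ.trans hj) (not_le.2 aleph0_pos)
  obtain ⟨ξ0, hξ0⟩ := hne
  have hjJ : j ∈ J := ⟨ξ0.1, ξ0.2.2, hξ0⟩
  refine ⟨a j, δ, j, hj.trans ?_⟩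
  rw [← mk_image_eq (f := fun ξ : (Z J a ∩ Iio δ : Set W) => ξ.1) Subtype.val_injective]
  refine mk_le_mk_of_subset ?_
  rintro _ ⟨ξ, hξ, rfl⟩
  exact ⟨(ξ.2.1 j hjJ).1, ξ.2.2, (ξ.2.1 j hjJ).2, hξ⟩

/-- Every colouring with `r` colours, `κ ^ r = κ`, of an Abelian group with more than `κ` elements
has a monochromatic symmetric subset with at least `κ` elements. -/
theorem not_avoids_of_power {κ r : Cardinal.{u}} (hκ : ℵ₀ ≤ κ) (G : Type u) [AddCommGroup G]
    (hκG : κ < #G) (hr : κ ^ r ≤ κ) : ¬ Avoids G κ r := by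
  classical
  rintro ⟨R, χ, rfl, hno⟩
  apply hno
  clear hno
  by_cases h2 : κ < #(range fun g : G => g + g)
  · have h3 : #(Order.succ κ).ord.ToType ≤ #(range fun g : G => g + g) := by
      rw [mk_ord_toType]
      exact Order.succ_le_of_lt h2
    obtain ⟨a⟩ := h3
    have hne : Nonempty (Order.succ κ).ord.ToType := by
      rw [← mk_ne_zero_iff, mk_ord_toType]
      exact (Order.bot_lt_succ κ).ne'
    have hIio : ∀ x : (Order.succ κ).ord.ToType, #(Iio x) ≤ κ := fun x =>
      Order.lt_succ_iff.1 (mk_Iio_toType_ord_lt x)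
    obtain ⟨α, β, j, hE⟩ := pairs_power (W := (Order.succ κ).ord.ToType) hκ
      (fun x => by
        rw [← Iio_insert]
        refine (mk_insert_le).trans ?_
        exact (add_le_add (hIio x) (one_le_aleph0.trans hκ)).trans (add_eq_self hκ).le)
      (fun A hA => by
        have h5 : ¬ IsCofinal A := by
          intro h
          have h6 := Order.cof_le h
          rw [Ordinal.cof_toType, (isRegular_succ hκ).cof_ord] at h6
          exact absurd (h6.trans hA) (not_le.2 (Order.lt_succ κ))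
        exact not_isCofinal_iff.1 h5) hr (fun ξ η => χ ((a η).1 - (a ξ).1))
    exact symm_of_pairs (fun w => (a w).1) (Subtype.val_injective.comp a.injective)
      (fun w => by
        obtain ⟨g, hg⟩ := (a w).2
        exact ⟨g, hg.symm⟩) χ α β j _ (fun ξ hξ => ⟨hξ.2.2.1, hξ.2.2.2⟩) hE
  · rw [not_lt] at h2
    have h3 : κ < #{x : G | x + x = 0} := by
      by_contra h4
      rw [not_lt] at h4
      exact absurd (mk_le_double.trans ((mul_le_mul' h2 h4).trans (mul_eq_self hκ).le))
        (not_le.2 hκG)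
    obtain ⟨j, hj⟩ := infinite_pigeonhole_card (fun x : {x : G | x + x = 0} => χ x.1) κ h3.le hκ
      (lt_cof_of_power hκ hr)
    refine symm_of_boolean χ j (hj.trans ?_)
    rw [← mk_image_eq (f := fun x : {x : G | x + x = 0} => x.1) Subtype.val_injective]
    refine mk_le_mk_of_subset ?_
    rintro _ ⟨x, hx, rfl⟩
    exact ⟨x.2, hx⟩

/-- A colouring without monochromatic symmetric subsets of size `μ` stays so for larger sizes and
with more colours. -/
theorem Avoids.mono {G : Type u} [AddGroup G] {μ μ' r r' : Cardinal.{u}}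
    (h : Avoids G μ r) (hμ : μ ≤ μ') (hr : r ≤ r') : Avoids G μ' r' := by
  obtain ⟨R, χ, rfl, hno⟩ := h
  obtain ⟨e⟩ : Nonempty (R ↪ r'.out) := by
    rw [← le_def, mk_out]
    exact hr
  refine ⟨r'.out, fun x => e (χ x), mk_out r', ?_⟩
  rintro ⟨A, h1, h2, h3⟩
  exact hno ⟨A, h1, fun x hx y hy => e.injective (h2 x hx y hy), hμ.trans h3⟩

section Upper

variable {G : Type u} [AddCommGroup G]

/-- The subgroup generated by a set of at most `κ` elements has at most `κ` elements. -/
theorem mk_closure_le {κ : Cardinal.{u}} (hκ : ℵ₀ ≤ κ) (S : Set G) (hS : #S ≤ κ) :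
    #(AddSubgroup.closure S) ≤ κ := by
  let T : Set G := insert 0 S
  have hT : #T ≤ κ := (mk_insert_le).trans
    ((add_le_add hS (one_le_aleph0.trans hκ)).trans (add_eq_self hκ).le)
  have : Nonempty T := ⟨⟨0, mem_insert _ _⟩⟩
  let φ : FreeAbelianGroup T →+ G := FreeAbelianGroup.lift (fun t : T => t.1)
  have h1 : ((AddSubgroup.closure S : AddSubgroup G) : Set G) ⊆ range φ := by
    have h2 : AddSubgroup.closure S ≤ φ.range := by
      rw [AddSubgroup.closure_le]
      intro x hx
      exact ⟨FreeAbelianGroup.of ⟨x, mem_insert_of_mem _ hx⟩, by simp [φ]⟩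
    intro x hx
    exact h2 hx
  refine (mk_le_mk_of_subset h1).trans (mk_range_le.trans ?_)
  rw [mk_freeAbelianGroup]
  exact max_le hT hκ

/-- The preimage of a small set under doubling is small. -/
theorem mk_half_le {κ : Cardinal.{u}} (hκ : ℵ₀ ≤ κ) (hB : #{x : G | x + x = 0} ≤ κ) (T : Set G)
    (hT : #T ≤ κ) : #{x : G | x + x ∈ T} ≤ κ := by
  classical
  let f : G → G := fun t => if h : ∃ g : G, g + g = t then h.choose else 0
  have hf : ∀ x : G, f (x + x) + f (x + x) = x + x := by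
    intro x
    have h : ∃ g : G, g + g = x + x := ⟨x, rfl⟩
    simp only [f]
    rw [dif_pos h]
    exact h.choose_spec
  let F : {x : G | x + x ∈ T} → T × {x : G | x + x = 0} := fun x =>
    (⟨x.1 + x.1, x.2⟩, ⟨x.1 - f (x.1 + x.1), by
      have h2 : x.1 - f (x.1 + x.1) + (x.1 - f (x.1 + x.1))
          = (x.1 + x.1) - (f (x.1 + x.1) + f (x.1 + x.1)) := by abel
      show x.1 - f (x.1 + x.1) + (x.1 - f (x.1 + x.1)) = 0
      rw [h2, hf, sub_self]⟩)
  have hF : Function.Injective F := by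
    intro x y hxy
    have h1 : x.1 + x.1 = y.1 + y.1 := congrArg (fun z => (Prod.fst z).1) hxy
    have h2 : x.1 - f (x.1 + x.1) = y.1 - f (y.1 + y.1) := congrArg (fun z => (Prod.snd z).1) hxy
    rw [h1] at h2
    exact Subtype.ext (sub_left_injective h2)
  refine (mk_le_of_injective hF).trans ?_
  rw [mk_prod, lift_id, lift_id]
  exact (mul_le_mul' hT hB).trans (mul_eq_self hκ).le

/-- The preimage of a small set under multiplication by `2 ^ n` is small. -/
theorem mk_pow_le {κ : Cardinal.{u}} (hκ : ℵ₀ ≤ κ) (hB : #{x : G | x + x = 0} ≤ κ) (T : Set G)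
    (hT : #T ≤ κ) (n : ℕ) : #{x : G | 2 ^ n • x ∈ T} ≤ κ := by
  induction n with
  | zero =>
    have h : {x : G | 2 ^ 0 • x ∈ T} = T := by
      ext x
      simp
    rw [h]
    exact hT
  | succ n ih =>
    have h : {x : G | 2 ^ (n + 1) • x ∈ T} = {x : G | x + x ∈ {y : G | 2 ^ n • y ∈ T}} := by
      ext x
      show 2 ^ (n + 1) • x ∈ T ↔ 2 ^ n • (x + x) ∈ T
      rw [← two_nsmul, ← mul_nsmul', pow_succ]
    rw [h]
    exact mk_half_le hκ hB _ ih

/-- The elements some multiple of which by a power of two lies in the subgroup generated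
by `S`. -/
def hull (S : Set G) : Set G := {g | ∃ n : ℕ, 2 ^ n • g ∈ AddSubgroup.closure S}

theorem subset_hull {S : Set G} {x : G} (hx : x ∈ S) : x ∈ hull S :=
  ⟨0, by simpa using AddSubgroup.subset_closure hx⟩

theorem hull_mono {S T : Set G} (h : S ⊆ T) : hull S ⊆ hull T := fun _ ⟨n, hn⟩ =>
  ⟨n, AddSubgroup.closure_mono h hn⟩

theorem hull_add {S : Set G} {x y : G} (hx : x ∈ hull S) (hy : y ∈ hull S) : x + y ∈ hull S := by
  obtain ⟨n, hn⟩ := hx
  obtain ⟨m, hm⟩ := hy
  refine ⟨n + m, ?_⟩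
  have h1 : (2 ^ (n + m)) • (x + y) = 2 ^ m • (2 ^ n • x) + 2 ^ n • (2 ^ m • y) := by
    rw [nsmul_add, ← mul_nsmul, ← mul_nsmul, pow_add, mul_comm (2 ^ m) (2 ^ n)]
  rw [h1]
  exact add_mem (nsmul_mem hn _) (nsmul_mem hm _)

theorem hull_neg {S : Set G} {x : G} (hx : x ∈ hull S) : -x ∈ hull S := by
  obtain ⟨n, hn⟩ := hx
  exact ⟨n, by rw [smul_neg]; exact neg_mem hn⟩

theorem hull_half {S : Set G} {x : G} (hx : x + x ∈ hull S) : x ∈ hull S := by
  obtain ⟨n, hn⟩ := hx
  refine ⟨n + 1, ?_⟩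
  rw [← two_nsmul, ← mul_nsmul'] at hn
  rwa [pow_succ]

theorem mk_hull_le {κ : Cardinal.{u}} (hκ : ℵ₀ ≤ κ) (hB : #{x : G | x + x = 0} ≤ κ) (S : Set G)
    (hS : #S ≤ κ) : #(hull S) ≤ κ := by
  have h : hull S = ⋃ n : ULift.{u} ℕ,
      {x : G | 2 ^ n.down • x ∈ ((AddSubgroup.closure S : AddSubgroup G) : Set G)} := by
    ext x
    simp only [hull, mem_ofPred_eq, mem_iUnion, SetLike.mem_coe]
    constructor
    · rintro ⟨n, hn⟩
      exact ⟨⟨n⟩, hn⟩
    · rintro ⟨n, hn⟩
      exact ⟨n.down, hn⟩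
  rw [h]
  refine (mk_iUnion_le _).trans ?_
  refine (mul_le_mul' (b := κ) (d := κ) ?_ ?_).trans (mul_eq_self hκ).le
  · simpa using hκ
  · exact ciSup_le' fun n => mk_pow_le hκ hB _ (mk_closure_le hκ S hS) n.down

/-- **A colouring with few colours.** If `#G = κ⁺` and at most `κ` elements have order two, some
colouring with `κ` colours has no monochromatic symmetric subset with more than two elements. -/
theorem avoids_three {κ : Cardinal.{u}} (hκ : ℵ₀ ≤ κ) (hG : #G = Order.succ κ)
    (hB : #{x : G | x + x = 0} ≤ κ) : Avoids G 3 κ := by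
  classical
  let W : Type u := (Order.succ κ).ord.ToType
  have hW : #W = Order.succ κ := mk_ord_toType _
  obtain ⟨e⟩ : Nonempty (G ≃ W) := by
    rw [← Cardinal.eq, hG, hW]
  have hIio : ∀ x : W, #(Iio x) ≤ κ := fun x => Order.lt_succ_iff.1 (mk_Iio_toType_ord_lt x)
  let H : W → Set G := fun w => hull {g | e g < w}
  have hHcard : ∀ w, #(H w) ≤ κ := by
    intro w
    apply mk_hull_le hκ hB
    have h1 : Function.Injective (fun g : {g | e g < w} => (⟨e g.1, g.2⟩ : Iio w)) := by
      intro x y h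
      exact Subtype.ext (e.injective (Subtype.mk.inj h))
    exact (mk_le_of_injective h1).trans (hIio w)
  have hmono : ∀ v w, v ≤ w → H v ⊆ H w := fun v w h => hull_mono fun g hg => lt_of_lt_of_le hg h
  have hnext : ∀ n : W, ∃ m, n < m := by
    intro n
    by_contra hcon
    push Not at hcon
    have h5 : IsCofinal ({n} : Set W) := fun m => ⟨n, rfl, hcon m⟩
    have h6 := Order.cof_le h5
    rw [Ordinal.cof_toType, (isRegular_succ hκ).cof_ord, mk_singleton] at h6
    exact absurd ((hκ.trans (Order.le_succ κ)).trans h6) (not_le.2 one_lt_aleph0)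
  have hex : ∀ g, {w | g ∈ H w}.Nonempty := by
    intro g
    obtain ⟨w, hw⟩ := hnext (e g)
    exact ⟨w, subset_hull hw⟩
  let lam : G → W := fun g => (wellFounded_lt (α := W)).min {w | g ∈ H w} (hex g)
  have hlam : ∀ g, g ∈ H (lam g) := fun g => (wellFounded_lt (α := W)).min_mem _ (hex g)
  have hle : ∀ g w, lam g ≤ w ↔ g ∈ H w := by
    intro g w
    constructor
    · intro h
      exact hmono _ _ h (hlam g)
    · intro h
      exact not_lt.1 ((wellFounded_lt (α := W)).not_lt_min _ h)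
  have hadd : ∀ x y w, lam x ≤ w → lam y ≤ w → lam (x + y) ≤ w := by
    intro x y w h1 h2
    rw [hle] at *
    exact hull_add h1 h2
  have hneg : ∀ x, lam (-x) ≤ lam x := fun x => by
    rw [hle]
    exact hull_neg (hlam x)
  have hdouble : ∀ x, lam (x + x) = lam x := by
    intro x
    apply le_antisymm
    · exact hadd _ _ _ le_rfl le_rfl
    · rw [hle]
      exact hull_half (hlam _)
  -- if `lam x < lam y`, then the sum has the same level as `y`
  have hsum : ∀ x y, lam x < lam y → lam (x + y) = lam y := by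
    intro x y hxy
    apply le_antisymm (hadd _ _ _ hxy.le le_rfl)
    by_contra hlt
    rw [not_le] at hlt
    have h1 : lam (-x + (x + y)) ≤ max (lam x) (lam (x + y)) :=
      hadd _ _ _ ((hneg x).trans (le_max_left _ _)) (le_max_right _ _)
    rw [neg_add_cancel_left] at h1
    exact absurd h1 (not_le.2 (max_lt hxy hlt))
  have hι : ∀ w, Nonempty (H w ↪ κ.out) := by
    intro w
    rw [← le_def, mk_out]
    exact hHcard w
  let ι : ∀ w, H w ↪ κ.out := fun w => (hι w).some
  let χ : G → κ.out := fun g => ι (lam g) ⟨g, hlam g⟩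
  have hχ : ∀ x y, lam x = lam y → χ x = χ y → x = y := by
    intro x y h1 h2
    have h3 : ∀ (w : W) (h : lam x = w), χ x = ι w ⟨x, (hle x w).1 h.le⟩ := by
      intro w h
      subst h
      rfl
    rw [h3 (lam y) h1] at h2
    exact Subtype.mk.inj ((ι (lam y)).injective h2)
  refine ⟨κ.out, χ, mk_out κ, ?_⟩
  rintro ⟨A, ⟨g, hg⟩, hmon, hcard⟩
  have hsymm : ∀ x ∈ A, g + -x + g ∈ A := by
    intro x hx
    rw [hg]
    exact ⟨x, hx, rfl⟩
  have hg2 : ∀ x : G, x + (g + -x + g) = g + g := by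
    intro x
    abel
  have hlev : ∀ x ∈ A, lam x = lam g ∨ lam (g + -x + g) = lam g := by
    intro x hx
    rcases lt_trichotomy (lam x) (lam (g + -x + g)) with h | h | h
    · right
      rw [← hsum _ _ h, hg2, hdouble]
    · left
      have h1 := hχ _ _ h (hmon _ hx _ (hsymm x hx))
      have h2 := hg2 x
      rw [← h1] at h2
      rw [← hdouble x, h2, hdouble]
    · left
      rw [← hsum _ _ h, add_comm, hg2, hdouble]
  have hA : A.Nonempty := by
    rw [← Set.nonempty_coe_sort, ← mk_ne_zero_iff]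
    intro h0
    rw [h0] at hcard
    simp at hcard
  obtain ⟨a, haA, ha⟩ : ∃ a ∈ A, lam a = lam g := by
    obtain ⟨x, hx⟩ := hA
    rcases hlev x hx with h | h
    · exact ⟨x, hx, h⟩
    · exact ⟨_, hsymm x hx, h⟩
  have huniq : ∀ x ∈ A, lam x = lam g → x = a := fun x hx h =>
    hχ _ _ (h.trans ha.symm) (hmon _ hx _ haA)
  have hsub : A ⊆ {a, g + -a + g} := by
    intro x hx
    rcases hlev x hx with h | h
    · left
      exact huniq x hx h
    · right
      have h1 := huniq _ (hsymm x hx) h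
      rw [← h1]
      show x = g + -(g + -x + g) + g
      abel
  have h3 : #A ≤ 2 := (mk_le_mk_of_subset hsub).trans (by
    refine mk_insert_le.trans ?_
    rw [mk_singleton]
    exact le_of_eq one_add_one_eq_two)
  have h4 : (3 : Cardinal.{u}) ≤ 2 := hcard.trans h3
  exact absurd h4 (by norm_num)

end Upper

/-- With at most `κ` colours and more than `κ` elements of order two, some monochromatic symmetric
set has more than `κ` elements. -/
theorem not_avoids_boolean {κ r : Cardinal.{u}} (hκ : ℵ₀ ≤ κ) (G : Type u) [AddCommGroup G]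
    (hB : κ < #{x : G | x + x = 0}) (hr : r ≤ κ) : ¬ Avoids G (Order.succ κ) r := by
  rintro ⟨R, χ, rfl, hno⟩
  apply hno
  obtain ⟨j, hj⟩ := infinite_pigeonhole_card (fun x : {x : G | x + x = 0} => χ x.1)
    (Order.succ κ) (Order.succ_le_of_lt hB) (hκ.trans (Order.le_succ κ)) (by
      rw [(isRegular_succ hκ).cof_ord]
      exact hr.trans_lt (Order.lt_succ κ))
  refine symm_of_boolean χ j (hj.trans ?_)
  rw [← mk_image_eq (f := fun x : {x : G | x + x = 0} => x.1) Subtype.val_injective]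
  refine mk_le_mk_of_subset ?_
  rintro _ ⟨x, hx, rfl⟩
  exact ⟨x.2, hx⟩

/-- The injective colouring. -/
theorem avoids_two (G : Type u) [AddGroup G] : Avoids G 2 #G := by
  refine ⟨G, id, rfl, ?_⟩
  rintro ⟨A, -, hmon, hcard⟩
  have h1 : #A ≤ 1 := by
    rw [Cardinal.le_one_iff_subsingleton]
    exact ⟨fun x y => Subtype.ext (hmon _ x.2 _ y.2)⟩
  have h2 : (2 : Cardinal.{u}) ≤ 1 := hcard.trans h1
  exact absurd h2 (by norm_num)

/-- **Monochromatic symmetric subsets of Abelian groups.** Let `G` be an infinite Abelian group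
with more than `κ` elements; `ν(G, μ)` is the least `r` with `Avoids G μ r`.

* `ν(G, κ) ≥ ℵ₀`.
* `ν(G, κ) > r` whenever `κ ≤ κ' < #G` and `κ' ^ r = κ'` for some infinite `κ'`.
* If `κ` is infinite, `#G = κ⁺` and `G` has at most `κ` elements `x` with `x + x = 0`, then `κ`
  colours suffice to avoid monochromatic symmetric sets with three elements; and if moreover
  `κ ^< κ = κ`, then `ν(G, μ) = κ` for all `3 ≤ μ ≤ κ`.
* If `κ` is infinite, `#G = κ⁺` and `G` has more than `κ` elements `x` with `x + x = 0`, then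
  `ν(G, μ) = κ⁺` for all `2 ≤ μ ≤ κ⁺`. -/
theorem result (κ : Cardinal.{u}) (G : Type u) [AddCommGroup G] [Infinite G] (hκG : κ < #G) :
    (∀ r, Avoids G κ r → ℵ₀ ≤ r) ∧
    (∀ κ' r, ℵ₀ ≤ κ' → κ ≤ κ' → κ' < #G → κ' ^ r ≤ κ' → ¬ Avoids G κ r) ∧
    (ℵ₀ ≤ κ → #G = Order.succ κ → #{x : G | x + x = 0} ≤ κ →
      Avoids G 3 κ ∧
      (κ ^< κ = κ → ∀ μ r, 3 ≤ μ → μ ≤ κ → (Avoids G μ r ↔ κ ≤ r))) ∧
    (ℵ₀ ≤ κ → #G = Order.succ κ → κ < #{x : G | x + x = 0} →
      ∀ μ r, 2 ≤ μ → μ ≤ Order.succ κ → (Avoids G μ r ↔ Order.succ κ ≤ r)) := by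
  refine ⟨ZFCAnswer.result κ G hκG, ?_, ?_, ?_⟩
  · intro κ' r h1 h2 h3 h4 h5
    exact not_avoids_of_power h1 G h3 h4 (Avoids.mono h5 h2 le_rfl)
  · intro hκ hG hB
    refine ⟨avoids_three hκ hG hB, fun hpow μ r h3 hμ => ⟨fun h => ?_, fun h => ?_⟩⟩
    · by_contra hlt
      refine not_avoids_of_power hκ G hκG ?_ (Avoids.mono h hμ le_rfl)
      exact (le_powerlt κ (not_le.1 hlt)).trans hpow.le
    · exact Avoids.mono (avoids_three hκ hG hB) h3 h
  · intro hκ hG hB μ r h2 hμ
    constructor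
    · intro h
      by_contra hlt
      exact not_avoids_boolean hκ G hB (Order.lt_succ_iff.1 (not_le.1 hlt))
        (Avoids.mono h hμ le_rfl)
    · intro h
      exact Avoids.mono (avoids_two G) h2 (hG.le.trans h)

end Pool.Agent.Results.MP_d56e90_lc.ExactNumber
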